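import Pool.Agent.helper5.IH.Spec

/-! # Row ih:MRG (MP_45d809_mp): merging two circuits -/

set_option autoImplicit false

namespace Pool.Agent.IH
open Finset CT SYM

theorem MRG_half {D : Type} [Fintype D] (P : (D → Bool) → Prop) (ψ : D → Bool) (d1 d2 : D)
    (hP : ∀ φ, P φ → P fun d => xor (φ d) (ψ d)) (h1 : ψ d1 = true) (h2 : ψ d2 = false) :
    Nat.card {φ : D → Bool // P φ} = 2 * Nat.card {φ : D → Bool // P φ ∧ φ d1 = φ d2} := by
  classical
  rw [Nat.card_eq_fintype_card, Fintype.card_subtype, Nat.card_eq_fintype_card, Fintype.card_subtype,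
    ← card_filter_add_card_filter_not (s := univ.filter P) (fun φ => φ d1 = φ d2), filter_filter, filter_filter, two_mul]
  congr 1
  apply card_nbij' (fun φ d => xor (φ d) (ψ d)) (fun φ d => xor (φ d) (ψ d))
  · intro φ hφ
    simp only [coe_filter, mem_univ, true_and, Set.mem_ofPred_eq] at hφ ⊢
    refine ⟨hP φ hφ.1, ?_⟩
    rw [h1, h2]
    have := hφ.2
    revert this
    cases φ d1 <;> cases φ d2 <;> simp
  · intro φ hφ
    simp only [coe_filter, mem_univ, true_and, Set.mem_ofPred_eq] at hφ ⊢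
    refine ⟨hP φ hφ.1, ?_⟩
    rw [h1, h2, hφ.2]
    cases φ d2 <;> simp
  · intro φ _
    funext d
    simp
  · intro φ _
    funext d
    simp

theorem MRG_sum {D : Type} [Fintype D] [DecidableEq D] (s τ : D → D) (ψ φ : D → Bool) (d1 d2 : D)
    (hs : ∀ d, s (s d) = d) (hs' : ∀ d, s d ≠ d) (hτ : ∀ d, τ (τ d) = d) (hτ' : ∀ d, τ d ≠ d)
    (hψs : ∀ d, ψ (s d) = ψ d) (hψτ : ∀ d, ψ (τ d) = ψ d) (h1 : ψ d1 = true) (h2 : ψ d2 = false)
    (hφs : ∀ d, φ (s d) = φ d)
    (hφτ : ∀ d, d ≠ d1 → d ≠ τ d1 → d ≠ d2 → d ≠ τ d2 → φ (τ d) = φ d) : φ d1 = φ (τ d1) := by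
  let F : D → ZMod 2 := fun d => if ψ d = true ∧ φ d = true then 1 else 0
  have hF1 : ∑ d, F d = 0 := by
    apply sum_involution (fun d _ => s d)
    · intro d _
      have : F (s d) = F d := by simp only [F, hψs, hφs]
      rw [this]
      exact CharTwo.add_self_eq_zero _
    · intro d _ _
      exact hs' d
    · intro d _
      exact mem_univ _
    · intro d _
      exact hs d
  have hF2 : ∑ d ∈ univ.filter (fun d => d ≠ d1 ∧ d ≠ τ d1), F d = 0 := by
    apply sum_involution (fun d _ => τ d)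
    · intro d hd
      have hd' := (mem_filter.1 hd).2
      have : F (τ d) = F d := by
        by_cases hd2 : d = d2
        · subst hd2
          simp only [F, hψτ, h2]
          simp
        · by_cases hd3 : d = τ d2
          · subst hd3
            simp only [F, hψτ, h2]
            simp
          · simp only [F, hψτ, hφτ d hd'.1 hd'.2 hd2 hd3]
      rw [this]
      exact CharTwo.add_self_eq_zero _
    · intro d _ _
      exact hτ' d
    · intro d hd
      have hd' := (mem_filter.1 hd).2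
      refine mem_filter.2 ⟨mem_univ _, ?_, ?_⟩
      · intro h
        exact hd'.2 (by rw [← h, hτ])
      · intro h
        exact hd'.1 (by rw [← hτ d, h, hτ])
    · intro d _
      exact hτ d
  have hF3 : ∑ d, F d = F d1 + F (τ d1) + ∑ d ∈ univ.filter (fun d => d ≠ d1 ∧ d ≠ τ d1), F d := by
    rw [← sum_filter_add_sum_filter_not univ (fun d => d ≠ d1 ∧ d ≠ τ d1) F, add_comm]
    congr 1
    have : univ.filter (fun d => ¬ (d ≠ d1 ∧ d ≠ τ d1)) = {d1, τ d1} := by
      ext d
      simp only [mem_filter, mem_univ, true_and, mem_insert, mem_singleton]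
      tauto
    rw [this, sum_pair (hτ' d1).symm]
  rw [hF1, hF2, add_zero] at hF3
  have e1 : F d1 = if φ d1 = true then 1 else 0 := by simp [F, h1]
  have e2 : F (τ d1) = if φ (τ d1) = true then 1 else 0 := by simp [F, hψτ, h1]
  rw [e1, e2] at hF3
  revert hF3
  cases φ d1 <;> cases φ (τ d1) <;> simp

/-- invariant functions, with the condition of `LBF` -/
def MRG_Inv {D : Type} (s τ : D → D) (φ : D → Bool) : Prop :=
  (∀ d, φ (s d) = φ d) ∧ (∀ d, φ (τ d) = φ d) ∧ ∀ d : D, False → φ d = false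

theorem MRG (hLBF : SYM.LBF_stmt) : MRG_stmt := by
  classical
  intro V _ _ G τ h4 hconn hts h2
  have hfin : Finite G.Dart := inferInstance
  let _ : Fintype G.Dart := Fintype.ofFinite _
  have hLB : ∀ τ' : G.Dart → G.Dart, Nat.card {φ : G.Dart → Bool // MRG_Inv (fun d => d.symm) τ' φ} = 2 ^ nci τ' :=
    fun τ' => hLBF G.Dart (fun d => d.symm) τ' (fun _ => False)
  obtain ⟨hττ, hfst, hne⟩ := hts
  have hsn : ∀ d : G.Dart, d.symm ≠ d := fun d h => by
    have := congrArg (fun d : G.Dart => d.fst) h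
    exact d.adj.ne this.symm
  -- a vertex with darts of both values
  obtain ⟨ψ, hψ, d1, d2, hd, hv1, hv2⟩ : ∃ ψ : G.Dart → Bool, MRG_Inv (fun d => d.symm) τ ψ ∧
      ∃ d1 d2 : G.Dart, d1.fst = d2.fst ∧ ψ d1 = true ∧ ψ d2 = false := by
    by_contra hcon
    push Not at hcon
    have hconst : ∀ ψ : G.Dart → Bool, MRG_Inv (fun d => d.symm) τ ψ → ∀ d d' : G.Dart, ψ d = ψ d' := by
      intro ψ hψ
      have hloc : ∀ d d' : G.Dart, d.fst = d'.fst → ψ d = ψ d' := by
        intro d d' h
        cases e1 : ψ d <;> cases e2 : ψ d'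
        · rfl
        · exact absurd e1 (hcon ψ hψ d' d h.symm e2)
        · exact absurd e2 (hcon ψ hψ d d' h e1)
        · rfl
      have hreach : ∀ u w : V, G.Reachable u w → ∀ d d' : G.Dart, d.fst = u → d'.fst = w → ψ d = ψ d' := by
        intro u w hr
        obtain ⟨p⟩ := hr
        induction p with
        | nil =>
          intro d d' e1 e2
          exact hloc d d' (e1.trans e2.symm)
        | cons hadj p ih =>
          rename_i a b c
          intro d d' e1 e2
          have hd0 : ψ d = ψ (SimpleGraph.Dart.mk (a, b) hadj) := hloc _ _ e1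
          have hd1 : ψ (SimpleGraph.Dart.mk (a, b) hadj) = ψ (SimpleGraph.Dart.mk (a, b) hadj).symm :=
            (hψ.1 _).symm
          rw [hd0, hd1]
          exact ih _ _ rfl e2
      intro d d'
      exact hreach _ _ (hconn.preconnected d.fst d'.fst) d d' rfl rfl
    have hcard := hLB τ
    have hle : Nat.card {φ : G.Dart → Bool // MRG_Inv (fun d => d.symm) τ φ} ≤ Nat.card Bool := by
      by_cases hem : Nonempty G.Dart
      · obtain ⟨d0⟩ := hem
        apply Nat.card_le_card_of_injective (fun φ => φ.1 d0)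
        intro φ φ' h
        apply Subtype.ext
        funext d
        rw [hconst φ.1 φ.2 d d0, hconst φ'.1 φ'.2 d d0]
        exact h
      · have hsub : ∀ φ φ' : {φ : G.Dart → Bool // MRG_Inv (fun d => d.symm) τ φ}, φ = φ' := by
          intro φ φ'
          apply Subtype.ext
          funext d
          exact absurd ⟨d⟩ hem
        apply Nat.card_le_card_of_injective (fun _ => true)
        intro φ φ' _
        exact hsub φ φ'
    rw [hcard, Nat.card_eq_fintype_card, Fintype.card_bool] at hle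
    have h3 : 2 ^ 2 ≤ 2 ^ nci τ := Nat.pow_le_pow_right (by norm_num) h2
    omega
  obtain ⟨hψs, hψτ, _⟩ := hψ
  have hvτ1 : ψ (τ d1) = true := by rw [hψτ, hv1]
  have hvτ2 : ψ (τ d2) = false := by rw [hψτ, hv2]
  have n12 : d1 ≠ d2 := fun h => by rw [h, hv2] at hv1; exact Bool.noConfusion hv1
  have n1t2 : d1 ≠ τ d2 := fun h => by rw [h, hvτ2] at hv1; exact Bool.noConfusion hv1
  have nt12 : τ d1 ≠ d2 := fun h => by rw [h, hv2] at hvτ1; exact Bool.noConfusion hvτ1
  have nt1t2 : τ d1 ≠ τ d2 := fun h => by rw [h, hvτ2] at hvτ1; exact Bool.noConfusion hvτ1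
  have n11 : τ d1 ≠ d1 := hne d1
  have n22 : τ d2 ≠ d2 := hne d2
  let τ₁ : G.Dart → G.Dart := fun d => if d = d1 then d2 else if d = d2 then d1 else
    if d = τ d1 then τ d2 else if d = τ d2 then τ d1 else τ d
  have t1 : τ₁ d1 = d2 := by simp [τ₁]
  have t2 : τ₁ d2 = d1 := by simp [τ₁, n12.symm]
  have t3 : τ₁ (τ d1) = τ d2 := by simp [τ₁, n11, nt12]
  have t4 : τ₁ (τ d2) = τ d1 := by simp [τ₁, n1t2.symm, n22, nt1t2.symm]
  have t5 : ∀ d, d ≠ d1 → d ≠ d2 → d ≠ τ d1 → d ≠ τ d2 → τ₁ d = τ d := by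
    intro d a1 a2 a3 a4
    simp [τ₁, a1, a2, a3, a4]
  have hinj : ∀ a b, τ a = b → a = τ b := fun a b h => by rw [← h, hττ]
  refine ⟨d1.fst, τ₁, ⟨?_, ?_, ?_⟩, ?_, ?_⟩
  · intro d
    by_cases a1 : d = d1
    · rw [a1, t1, t2]
    by_cases a2 : d = d2
    · rw [a2, t2, t1]
    by_cases a3 : d = τ d1
    · rw [a3, t3, t4]
    by_cases a4 : d = τ d2
    · rw [a4, t4, t3]
    rw [t5 d a1 a2 a3 a4, t5 (τ d) (fun h => a3 (hinj _ _ h)) (fun h => a4 (hinj _ _ h))
      (fun h => a1 (by rw [hinj _ _ h, hττ])) (fun h => a2 (by rw [hinj _ _ h, hττ])), hττ]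
  · intro d
    by_cases a1 : d = d1
    · rw [a1, t1, hd]
    by_cases a2 : d = d2
    · rw [a2, t2, hd]
    by_cases a3 : d = τ d1
    · rw [a3, t3, hfst, hfst, hd]
    by_cases a4 : d = τ d2
    · rw [a4, t4, hfst, hfst, hd]
    rw [t5 d a1 a2 a3 a4, hfst]
  · intro d
    by_cases a1 : d = d1
    · rw [a1, t1]
      exact n12.symm
    by_cases a2 : d = d2
    · rw [a2, t2]
      exact n12
    by_cases a3 : d = τ d1
    · rw [a3, t3]
      exact nt1t2.symm
    by_cases a4 : d = τ d2
    · rw [a4, t4]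
      exact nt1t2
    rw [t5 d a1 a2 a3 a4]
    exact hne d
  · intro d hdv
    apply t5
    · intro h
      exact hdv (by rw [h])
    · intro h
      exact hdv (by rw [h, hd])
    · intro h
      exact hdv (by rw [h, hfst])
    · intro h
      exact hdv (by rw [h, hfst, hd])
  · have hiff : ∀ φ : G.Dart → Bool, MRG_Inv (fun d => d.symm) τ₁ φ ↔
        (MRG_Inv (fun d => d.symm) τ φ ∧ φ d1 = φ d2) := by
      intro φ
      constructor
      · rintro ⟨hs, ht, _⟩
        have hkey : φ d1 = φ (τ d1) := by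
          apply MRG_sum (fun d : G.Dart => d.symm) τ ψ φ d1 d2 (fun d => d.symm_symm) hsn hττ hne hψs hψτ hv1 hv2 hs
          intro d a1 a3 a2 a4
          rw [← t5 d a1 a2 a3 a4]
          exact ht d
        have h12 : φ d1 = φ d2 := by
          have := ht d1
          rw [t1] at this
          exact this.symm
        have h34 : φ (τ d1) = φ (τ d2) := by
          have := ht (τ d1)
          rw [t3] at this
          exact this.symm
        refine ⟨⟨hs, fun d => ?_, fun _ h => h.elim⟩, h12⟩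
        by_cases a1 : d = d1
        · rw [a1, hkey]
        by_cases a2 : d = d2
        · rw [a2, ← h34, ← hkey, h12]
        by_cases a3 : d = τ d1
        · rw [a3, hττ, hkey]
        by_cases a4 : d = τ d2
        · rw [a4, hττ, ← h12, hkey, h34]
        rw [← t5 d a1 a2 a3 a4]
        exact ht d
      · rintro ⟨⟨hs, ht, _⟩, h12⟩
        refine ⟨hs, fun d => ?_, fun _ h => h.elim⟩
        by_cases a1 : d = d1
        · rw [a1, t1, h12]
        by_cases a2 : d = d2
        · rw [a2, t2, h12]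
        by_cases a3 : d = τ d1
        · rw [a3, t3, ht, ht, h12]
        by_cases a4 : d = τ d2
        · rw [a4, t4, ht, ht, h12]
        rw [t5 d a1 a2 a3 a4]
        exact ht d
    have hhalf := MRG_half (MRG_Inv (fun d : G.Dart => d.symm) τ) ψ d1 d2 (by
      rintro φ ⟨hs, ht, _⟩
      refine ⟨fun d => ?_, fun d => ?_, fun _ h => h.elim⟩
      · change xor (φ d.symm) (ψ d.symm) = xor (φ d) (ψ d)
        have e1 : φ d.symm = φ d := hs d
        have e2 : ψ d.symm = ψ d := hψs d
        rw [e1, e2]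
      · change xor (φ (τ d)) (ψ (τ d)) = xor (φ d) (ψ d)
        rw [ht, hψτ]) hv1 hv2
    rw [hLB] at hhalf
    have hc : Nat.card {φ : G.Dart → Bool // MRG_Inv (fun d => d.symm) τ φ ∧ φ d1 = φ d2} = 2 ^ nci τ₁ := by
      rw [← hLB τ₁]
      apply Nat.card_congr
      exact Equiv.subtypeEquivRight fun φ => (hiff φ).symm
    rw [hc, ← pow_succ'] at hhalf
    exact (Nat.pow_right_injective (le_refl 2) hhalf).symm

end Pool.Agent.IH
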